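import Pool.Agent.TH707.SP.Sgl
import Pool.Agent.W900.RB.Amp
import Pool.Agent.W900.RB.NX
import Pool.Agent.W900.CH.NELev
import Pool.Agent.TH683.GP.Fin

/-!
# Sparse hard sets near random oracles
-/

set_option autoImplicit false

namespace Pool.Agent.TH707.SP

open Pool.Agent.NPC Pool.Agent.H620R2.Gauge Pool.Agent.H591R3.PHG Pool.Agent.H622R2
  Pool.Agent.W900.IE Pool.Agent.TH680.NPP
open Pool.Agent.TH680.OD (join)
open Pool.Agent.TH680.ND (rep pr pr_inj code sparseS_join)

theorem isNP_subst {A D : Oracle} (hD : IsFP A (fun q => [D q])) {L : Set (List Bool)}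
    (h : IsNP D L) : IsNP A L := by
  obtain ⟨V, p, hV, hL⟩ := h
  exact ⟨V, p, Pool.Agent.TH680.DT.isFP_subst hD hV, hL⟩

theorem isFP_emp (A : Oracle) : IsFP A (fun q => [join A TH680.ND.emp q]) := by
  have h10 := IsFP.tt (A := A) (Q := fun q => [q.tail])
    (H := fun p => [decide (p.1.head? = some false) && p.2.head?.getD false])
    (Poly.cons (Poly.tail Poly.id) (NPC.Poly.const []))
    (Poly.cons (Poly.and (Poly.decide_eq (Poly.head? (Poly.fst Poly.id)) (NPC.Poly.const _))
      (Poly.head?_getD (Poly.snd Poly.id) false)) (NPC.Poly.const []))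
  have h11 : (fun q => [join A TH680.ND.emp q]) = fun q =>
      [decide (q.head? = some false) && ((List.map A [q.tail]).head?.getD false)] := by
    funext q
    rcases q with _ | ⟨b, z⟩
    · simp [join]
    · cases b <;> simp [join, TH680.ND.emp]
  rw [h11]
  exact h10

/-- **No sparse hard sets, even for strong nondeterministic reductions.** -/
theorem no_sparse {A : Oracle} (h : ∃ L, IsNP A L ∧ ¬ WithAdvice (IsNP A) Lᶜ) {S : Oracle}
    {p : Polynomial ℕ} (hS : ∀ n, {x : List Bool | S x = true ∧ x.length ≤ n}.ncard ≤ p.eval n) :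
    ¬ ∀ L, IsNP A L → IsNP (join A S) Lᶜ := by
  obtain ⟨L, h1, h2⟩ := h
  intro hcon
  apply h2
  have h3 : WithAdvice (IsNP (join A S)) Lᶜ := (hcon L h1).withAdvice
  obtain ⟨L', a, r, h4, h5, h6⟩ := (nppoly_iff (sparseS_join hS A) _).1 h3
  exact ⟨L', a, r, isNP_subst (isFP_emp A) h4, h5, h6⟩

theorem isNP_compl_join {A S : Oracle} {L : Set (List Bool)} (h : IsP (join A S) L) :
    IsNP (join A S) Lᶜ := isNP_of_p (isP_compl h)

/-! ### Tally sets for countable classes in `P/poly` -/

/-- the polynomial `pr j` -/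
noncomputable def prP (j : ℕ) : Polynomial ℕ :=
  (Polynomial.C j + Polynomial.X) * (Polynomial.C j + Polynomial.X) + Polynomial.C j

theorem eval_prP (j n : ℕ) : (prP j).eval n = pr j n := by
  unfold prP pr
  simp only [Polynomial.eval_add, Polynomial.eval_mul, Polynomial.eval_C, Polynomial.eval_X]

theorem exists_tally {A : Oracle} {C : Set (Set (List Bool))} (hC : C.Countable)
    (h : ∀ L ∈ C, WithAdvice (IsP A) L) :
    ∃ T : Oracle, (∀ x, T x = true → x = List.replicate x.length true) ∧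
      ∀ L ∈ C, IsP (join A T) L := by
  classical
  rcases C.eq_empty_or_nonempty with hE | hne
  · exact ⟨fun _ => false, fun x hx => absurd hx (by simp), fun L hL => by
      rw [hE] at hL
      exact absurd hL (Set.notMem_empty L)⟩
  obtain ⟨f, hf⟩ := hC.exists_eq_range hne
  have hw : ∀ j, WithAdvice (IsP A) (f j) := fun j => h _ (by rw [hf]; exact ⟨j, rfl⟩)
  choose L' a q h1 h2 h3 using hw
  set b : ℕ → List Bool := fun k => if hk : ∃ j n, k = pr j n then
    a hk.choose hk.choose_spec.choose else [] with hb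
  have hbp : ∀ j n, b (pr j n) = a j n := by
    intro j n
    have hk : ∃ j' n', pr j n = pr j' n' := ⟨j, n, rfl⟩
    simp only [hb]
    rw [dif_pos hk]
    have h4 := hk.choose_spec.choose_spec
    obtain ⟨e1, e2⟩ := pr_inj h4
    rw [← e2]
    rw [← e1]
  refine ⟨chr (bitsOf b), fun x hx => bitsOf_tally (chr_iff.1 hx), fun L hL => ?_⟩
  rw [hf] at hL
  obtain ⟨j, rfl⟩ := hL
  refine isP_of_holds (P := prP j) (q := q j) (holds_bitsOf b) (h1 j) (fun n => ?_) (fun x => ?_)
  · rw [eval_prP, hbp]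
    exact h2 j n
  · rw [eval_prP, hbp]
    exact h3 j x

theorem countable_nexp (A : Oracle) : {L | IsNEXP A L}.Countable := by
  have hcount := CC.poly_countable
  have h2 : Countable Alg := inferInstance
  refine (Set.countable_range (fun i : Alg × Polynomial ℕ =>
    {x : List Bool | ∃ w : List Bool, w.length = 2 ^ i.2.eval x.length ∧
      i.1.out A (pairBits w x) = some [true]})).mono ?_
  rintro L ⟨V, p, ⟨M, hM⟩, hL⟩
  refine ⟨(M, p), ?_⟩
  ext x
  rw [Set.mem_ofPred_eq, hL]
  simp only [hM, Option.some.injEq]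

/-- If `NEXP` is in `BPP` then some tally set is hard for `NEXP`. -/
theorem tally_nexp {A : Oracle} (h : ∀ L, IsNEXP A L → IsBPP A L) :
    ∃ T : Oracle, (∀ x, T x = true → x = List.replicate x.length true) ∧
      ∀ L, IsNEXP A L → IsP (join A T) L :=
  exists_tally (countable_nexp A) fun L hL => (h L hL).withAdvice

/-- If `EXP` and `PSPACE` are in `ZPP` then some tally set in `ZPP` is hard for `EXP`. -/
theorem tally_zpp {A : Oracle} (h : ∀ L, IsEXP A L ∨ IsPSPACE A L → IsZPP A L) :
    ∃ T : Oracle, (∀ x, T x = true → x = List.replicate x.length true) ∧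
      IsZPP A {x | T x = true} ∧ ∀ L, IsEXP A L ∨ IsPSPACE A L → IsP (join A T) L := by
  obtain ⟨K, hK1, hK2⟩ := exists_complete A
  have hK3 : WithAdvice (IsP A) K := (W900.RB.isBPP_of_isRP
    (W900.RB.isRP_of_isZPP (h K (Or.inr hK1.isPSPACE)))).withAdvice
  obtain ⟨L', a, q, h1, h2, h3⟩ := hK3
  have e1 : Lev A 3 (fun x => x ∈ K) := lev_of_isSig (k := 1) hK1
  have e2 : Lev A 3 (fun x => x ∈ L') := lev_of_isSig (k := 1) (isNP_of_p h1)
  obtain ⟨b, h4, h5, d, h6⟩ := exists_least e1 e2 h2 h3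
  have hK4 : IsP (join A (chr (bitsOf b))) K :=
    isP_of_holds (P := Polynomial.X) (q := q) (holds_bitsOf b) h1
      (fun n => by rw [Polynomial.eval_X]; exact h4 n)
      (fun x => by rw [Polynomial.eval_X]; exact h5 x)
  refine ⟨chr (bitsOf b), fun x hx => bitsOf_tally (chr_iff.1 hx), ?_, fun L hL =>
    isP_of_hard hK2 hK4 (h L hL).isNP⟩
  have h7 : {x | chr (bitsOf b) x = true} = {x | x ∈ bitsOf b} := by
    ext x
    exact chr_iff
  rw [h7]
  exact h _ (Or.inr h6.isSig.isPH.isPSPACE)

end Pool.Agent.TH707.SP
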