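import Pool.Agent.TH680.ND.Law
import Pool.Agent.H673R2.OneTT.Kset
import Pool.Agent.H943R5.GC.U6
import Pool.Agent.W900.PS.Inv

/-!
# Advice as a tally set
-/

set_option autoImplicit false

namespace Pool.Agent.TH707.SP

open Pool.Agent.NPC Pool.Agent.H620R2.Gauge Pool.Agent.H591R3.PHG Pool.Agent.H622R2
  Pool.Agent.W900.IE Pool.Agent.TH680.NPP
open Pool.Agent.W900.PS (poly_rep poly_str)
open Pool.Agent.TH680.OD (join)
open Pool.Agent.TH680.ND (rep pr code code_inj N_le_code i_le_code j_le_code isFP_tab lst poly_lst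
  lst_bits poly_replen)

/-- the tally set with the bits of the strings `a n` -/
def bitsOf (a : ℕ → List Bool) : Set (List Bool) :=
  {x | ∃ n i, (x = rep (code n i 0) ∧ i < (a n).length) ∨
    (x = rep (code n i 1) ∧ (a n).getD i false = true)}

theorem rep_inj {m n : ℕ} (h : rep m = rep n) : m = n := by
  have := congrArg List.length h
  simpa [rep] using this

theorem length_rep (n : ℕ) : (rep n).length = n := List.length_replicate

theorem mem_bitsOf_zero {a : ℕ → List Bool} {n i : ℕ} :
    rep (code n i 0) ∈ bitsOf a ↔ i < (a n).length := by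
  constructor
  · rintro ⟨n', i', (⟨h1, h2⟩ | ⟨h1, _⟩)⟩
    · obtain ⟨rfl, rfl, _⟩ := code_inj (rep_inj h1)
      exact h2
    · obtain ⟨_, _, h⟩ := code_inj (rep_inj h1)
      omega
  · intro h
    exact ⟨n, i, Or.inl ⟨rfl, h⟩⟩

theorem mem_bitsOf_one {a : ℕ → List Bool} {n i : ℕ} :
    rep (code n i 1) ∈ bitsOf a ↔ (a n).getD i false = true := by
  constructor
  · rintro ⟨n', i', (⟨h1, _⟩ | ⟨h1, h2⟩)⟩
    · obtain ⟨_, _, h⟩ := code_inj (rep_inj h1)
      omega
    · obtain ⟨rfl, rfl, _⟩ := code_inj (rep_inj h1)
      exact h2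
  · intro h
    exact ⟨n, i, Or.inr ⟨rfl, h⟩⟩

theorem bitsOf_tally {a : ℕ → List Bool} {x : List Bool} (h : x ∈ bitsOf a) :
    x = List.replicate x.length true := by
  obtain ⟨n, i, (⟨rfl, _⟩ | ⟨rfl, _⟩)⟩ := h <;> rw [length_rep] <;> rfl

theorem recover (w : List Bool) {Q : ℕ} (h : w.length ≤ Q) :
    ((List.range Q).filter (fun i => decide (i < w.length))).map (fun i => w.getD i false) =
      w := by
  obtain ⟨d, rfl⟩ := Nat.exists_eq_add_of_le h
  rw [List.range_add, List.filter_append]
  have h1 : (List.range w.length).filter (fun i => decide (i < w.length)) =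
      List.range w.length := by
    rw [List.filter_eq_self]
    intro i hi
    simpa using hi
  have h2 : ((List.range d).map (w.length + ·)).filter (fun i => decide (i < w.length)) = [] := by
    rw [List.filter_eq_nil_iff]
    intro i hi
    rw [List.mem_map] at hi
    obtain ⟨j, _, rfl⟩ := hi
    simp
  rw [h1, h2, List.append_nil]
  apply List.ext_getElem
  · simp
  · intro i h3 h4
    simp only [List.getElem_map, List.getElem_range]
    rw [List.getD_eq_getElem?_getD, List.getElem?_eq_getElem h4]
    rfl

theorem uPoly_code {α : Type} [TEnc α] {n i j : α → ℕ} (hn : UPoly n) (hi : UPoly i)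
    (hj : UPoly j) : UPoly (fun a => code (n a) (i a) (j a)) := by
  have hp : ∀ {m n : α → ℕ}, UPoly m → UPoly n → UPoly (fun a => pr (m a) (n a)) :=
    fun hm hn => UPoly.add (UPoly.mul (UPoly.add hm hn) (UPoly.add hm hn)) hm
  exact hp hn (hp hi hj)

section table

variable (P q : Polynomial ℕ)

/-- the questions -/
noncomputable def qs (x : List Bool) : List (List Bool) :=
  (List.range (q.eval x.length)).flatMap (fun i =>
    [true :: rep (code (P.eval x.length) (min i (q.eval x.length)) 0),
      true :: rep (code (P.eval x.length) (min i (q.eval x.length)) 1)])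

/-- the decoded string -/
noncomputable def dec (y : List Bool) : List Bool :=
  ((List.range (q.eval (unpair y).1.length)).filter (fun i =>
    decide (true :: rep (code (P.eval (unpair y).1.length)
      (min i (q.eval (unpair y).1.length)) 0) ∈ lst (unpair y).2))).map (fun i =>
    decide (true :: rep (code (P.eval (unpair y).1.length)
      (min i (q.eval (unpair y).1.length)) 1) ∈ lst (unpair y).2))

theorem uPoly_minq {α : Type} [TEnc α] {x : α → List Bool} {i : α → ℕ} (hx : Poly x)
    (hi : Poly i) : UPoly (fun a => min (i a) (q.eval (x a).length)) := by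
  have h1 : UPoly (fun a => q.eval (x a).length) := UPoly.eval (UPoly.length hx) q
  exact UPoly.of_le (Poly.min hi h1.toPoly) h1 fun a => min_le_right _ _

theorem poly_qs : Poly (qs P q) := by
  have hx : Poly (fun p : List Bool × ℕ => p.1) := Poly.fst Poly.id
  have hi : Poly (fun p : List Bool × ℕ => p.2) := Poly.snd Poly.id
  have hP : UPoly (fun p : List Bool × ℕ => P.eval p.1.length) := UPoly.eval (UPoly.length hx) P
  refine Poly.flatMap (F := fun (x : List Bool) (i : ℕ) =>
    [true :: rep (code (P.eval x.length) (min i (q.eval x.length)) 0),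
      true :: rep (code (P.eval x.length) (min i (q.eval x.length)) 1)])
    (UPoly.eval (UPoly.length Poly.id) q).range ?_
  refine Poly.cons (Poly.cons (NPC.Poly.const true) (poly_rep (uPoly_code hP
    (uPoly_minq q hx hi) (UPoly.const 0)))) (Poly.cons (Poly.cons (NPC.Poly.const true)
      (poly_rep (uPoly_code hP (uPoly_minq q hx hi) (UPoly.const 1))))
      (NPC.Poly.const []))

theorem poly_dec : Poly (dec P q) := by
  have hx : Poly (fun p : List Bool × ℕ => (unpair p.1).1) := poly_u1.comp (Poly.fst Poly.id)
  have hy : Poly (fun p : List Bool × ℕ => (unpair p.1).2) := poly_u2.comp (Poly.fst Poly.id)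
  have hi : Poly (fun p : List Bool × ℕ => p.2) := Poly.snd Poly.id
  have hP : UPoly (fun p : List Bool × ℕ => P.eval (unpair p.1).1.length) :=
    UPoly.eval (UPoly.length hx) P
  refine NPC.Poly.map (F := fun (y : List Bool) (i : ℕ) =>
    decide (true :: rep (code (P.eval (unpair y).1.length)
      (min i (q.eval (unpair y).1.length)) 1) ∈ lst (unpair y).2))
    (Poly.filter (p := fun (y : List Bool) (i : ℕ) =>
    decide (true :: rep (code (P.eval (unpair y).1.length)
      (min i (q.eval (unpair y).1.length)) 0) ∈ lst (unpair y).2))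
      (UPoly.eval (UPoly.length poly_u1) q).range ?_) ?_
  · exact Poly.dec_mem (Poly.cons (NPC.Poly.const true) (poly_rep (uPoly_code hP
      (uPoly_minq q hx hi) (UPoly.const 0)))) (poly_lst hy)
  · exact Poly.dec_mem (Poly.cons (NPC.Poly.const true) (poly_rep (uPoly_code hP
      (uPoly_minq q hx hi) (UPoly.const 1)))) (poly_lst hy)

/-- the tally set `T` has the bits of `a` -/
def Holds (a : ℕ → List Bool) (T : Oracle) : Prop := ∀ n i,
  T (rep (code n i 0)) = decide (i < (a n).length) ∧ T (rep (code n i 1)) = (a n).getD i false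

theorem isFP_adv {A T : Oracle} {a : ℕ → List Bool} (h : Holds a T)
    (ha : ∀ n, (a (P.eval n)).length ≤ q.eval n) :
    IsFP (join A T) (fun x => pairBits x (a (P.eval x.length))) := by
  have h1 : IsFP (join A T) (fun x => pairBits x (bits ((qs P q x).filter (join A T)))) :=
    isFP_tab (poly_qs P q)
  have h2 := isFP_postcomp h1 (poly_pairBits poly_u1 (poly_dec P q))
  have h3 : (fun x : List Bool => pairBits x (a (P.eval x.length))) = fun x =>
      pairBits (unpair (pairBits x (bits ((qs P q x).filter (join A T))))).1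
        (dec P q (pairBits x (bits ((qs P q x).filter (join A T))))) := by
    funext x
    rw [unpair_pairBits]
    congr 1
    unfold dec
    rw [unpair_pairBits]
    simp only [lst_bits]
    rw [← recover (a (P.eval x.length)) (ha x.length)]
    have hmem : ∀ i < q.eval x.length, ∀ b, b = 0 ∨ b = 1 →
        (true :: rep (code (P.eval x.length) (min i (q.eval x.length)) b) ∈
          (qs P q x).filter (join A T) ↔ T (rep (code (P.eval x.length) i b)) = true) := by
      intro i hi b hb
      rw [List.mem_filter, min_eq_left hi.le]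
      have h4 : join A T (true :: rep (code (P.eval x.length) i b)) =
        T (rep (code (P.eval x.length) i b)) := rfl
      rw [h4]
      refine ⟨fun h5 => h5.2, fun h5 => ⟨?_, h5⟩⟩
      unfold qs
      rw [List.mem_flatMap]
      refine ⟨i, List.mem_range.2 hi, ?_⟩
      rw [min_eq_left hi.le]
      rcases hb with rfl | rfl <;> simp
    have e1 : (List.range (q.eval x.length)).filter (fun i =>
        decide (true :: rep (code (P.eval x.length) (min i (q.eval x.length)) 0) ∈
          (qs P q x).filter (join A T))) =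
        (List.range (q.eval x.length)).filter
          (fun i => decide (i < (a (P.eval x.length)).length)) := by
      apply List.filter_congr
      intro i hi
      rw [List.mem_range] at hi
      rw [Bool.eq_iff_iff, decide_eq_true_eq, hmem i hi 0 (Or.inl rfl),
        (h (P.eval x.length) i).1]
    rw [e1]
    apply List.map_congr_left
    intro i hi
    rw [List.mem_filter, List.mem_range] at hi
    rw [Bool.eq_iff_iff, decide_eq_true_eq, hmem i hi.1 1 (Or.inr rfl),
      (h (P.eval x.length) i).2]
  rw [h3]
  exact h2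

end table

theorem isFP_left (A T : Oracle) : IsFP (join A T) (fun q => [A q]) := by
  have h1 := IsFP.tt (A := join A T) (Q := fun q => [false :: q])
    (H := fun p => [p.2.head?.getD false])
    (Poly.cons (Poly.cons (NPC.Poly.const false) Poly.id) (NPC.Poly.const []))
    (Poly.cons (Poly.head?_getD (Poly.snd Poly.id) false) (NPC.Poly.const []))
  exact h1

/-- **A language with advice is decided with the tally set.** -/
theorem isP_of_holds {A T : Oracle} {L L' : Set (List Bool)} {a : ℕ → List Bool}
    {P q : Polynomial ℕ} (h : Holds a T) (hL' : IsP A L')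
    (ha : ∀ n, (a (P.eval n)).length ≤ q.eval n)
    (hL : ∀ x, x ∈ L ↔ pairBits x (a (P.eval x.length)) ∈ L') : IsP (join A T) L := by
  obtain ⟨V, hV, hVL⟩ := hL'
  have hV2 : IsFP (join A T) V := Pool.Agent.TH680.DT.isFP_subst (isFP_left A T) hV
  exact ⟨_, IsFP.comp hV2 (isFP_adv P q h ha), fun x => by rw [hL, hVL]⟩

/-- `K` is hard for `NP` relative to `A` under many-one reductions -/
def ManyHard (A : Oracle) (K : Set (List Bool)) : Prop :=
  ∀ L, IsNP A L → ∃ f : List Bool → List Bool, IsFP A f ∧ ∀ x, x ∈ L ↔ f x ∈ K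

theorem exists_complete (A : Oracle) : ∃ K, IsNP A K ∧ ManyHard A K := by
  have hsw : Poly (fun z : List Bool => pairBits (unpair z).2 (unpair z).1) :=
    poly_pairBits poly_u2 poly_u1
  refine ⟨Pool.Agent.H673R2.OneTT.KA A, ?_, fun L hL => ?_⟩
  · obtain ⟨V, p, hV, h⟩ := Pool.Agent.H673R2.OneTT.isNP_KA A
    refine ⟨fun z => V (pairBits (unpair z).2 (unpair z).1), p,
      (Pool.Agent.H943R5.GC.U6.isFP_ofRO hV).precomp hsw, fun x => ?_⟩
    rw [h]
    simp only [unpair_pairBits]
  · obtain ⟨V, p, hV, h⟩ := hL
    obtain ⟨f, hf, hfL⟩ := Pool.Agent.H673R2.OneTT.hard_KA A L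
      ⟨fun z => V (pairBits (unpair z).2 (unpair z).1), p,
        Pool.Agent.H943R5.GC.U6.isFP_toRO (hV.precomp hsw), fun x => by
          rw [h]
          simp only [unpair_pairBits]⟩
    exact ⟨f, Pool.Agent.H943R5.GC.U6.isFP_ofRO hf, hfL⟩

theorem isP_of_hard {A T : Oracle} {K : Set (List Bool)}
    (hK : ManyHard A K) (h : IsP (join A T) K) {L : Set (List Bool)}
    (hL : IsNP A L) : IsP (join A T) L := by
  obtain ⟨f, hf, hfL⟩ := hK L hL
  obtain ⟨V, hV, hVK⟩ := h
  exact ⟨_, IsFP.comp hV (Pool.Agent.TH680.DT.isFP_subst (isFP_left A T) hf), fun x => by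
    rw [hfL, hVK]⟩

open Classical in
/-- the characteristic function of a set -/
noncomputable def chr (S : Set (List Bool)) : Oracle := fun x => decide (x ∈ S)

theorem chr_iff {S : Set (List Bool)} {x : List Bool} : chr S x = true ↔ x ∈ S := by
  classical
  unfold chr
  rw [decide_eq_true_eq]

theorem holds_bitsOf (a : ℕ → List Bool) : Holds a (chr (bitsOf a)) := by
  intro n i
  constructor
  · rw [Bool.eq_iff_iff, chr_iff, mem_bitsOf_zero, decide_eq_true_eq]
  · rw [Bool.eq_iff_iff, chr_iff, mem_bitsOf_one]

/-! ### The least good advice -/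

theorem length_str_mono {i j : ℕ} (h : i ≤ j) : (str i).length ≤ (str j).length := by
  rw [length_str, length_str]
  exact Nat.log_mono_right (by omega)

theorem exists_least {A : Oracle} {K L' : Set (List Bool)} {k k' : ℕ}
    (hK : Lev A k (fun x => x ∈ K)) (hL' : Lev A k' (fun x => x ∈ L')) {a : ℕ → List Bool}
    {q : Polynomial ℕ} (ha : ∀ n, (a n).length ≤ q.eval n)
    (h : ∀ x, x ∈ K ↔ pairBits x (a x.length) ∈ L') :
    ∃ b : ℕ → List Bool, (∀ n, (b n).length ≤ q.eval n) ∧
      (∀ x, x ∈ K ↔ pairBits x (b x.length) ∈ L') ∧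
      ∃ d, Lev A d (fun x => x ∈ bitsOf b) := by
  classical
  set Good : ℕ → ℕ → Prop := fun n j =>
    ∀ x : List Bool, x.length = n → (x ∈ K ↔ pairBits x (str j) ∈ L') with hGood
  have hex : ∀ n, ∃ j, Good n j := fun n => ⟨idx (a n), fun x hx => by
    rw [str_idx, ← hx]
    exact h x⟩
  set b : ℕ → List Bool := fun n => str (Nat.find (hex n)) with hb
  have hblen : ∀ n, (b n).length ≤ q.eval n := by
    intro n
    refine le_trans ?_ (ha n)
    have h1 : Nat.find (hex n) ≤ idx (a n) := Nat.find_min' _ (by
      intro x hx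
      rw [str_idx, ← hx]
      exact h x)
    have h2 := length_str_mono h1
    rwa [str_idx] at h2
  refine ⟨b, hblen, fun x => Nat.find_spec (hex x.length) x rfl, ?_⟩
  -- the formula
  set GoodT : List Bool × (List Bool × ℕ) → Prop := fun v =>
    ∀ y : List Bool, sz y ≤ 4 * v.1.length + 1 → (y.length = v.2.1.length →
      (y ∈ K ↔ pairBits y (str v.2.2) ∈ L')) with hGoodT
  have hGT : ∀ (x u : List Bool) (j : ℕ), u.length ≤ x.length →
      (GoodT (x, (u, j)) ↔ Good u.length j) := by
    intro x u j hu
    constructor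
    · intro h1 y hy
      refine h1 y ?_ hy
      have := sz_listBool_le y
      simp only
      omega
    · intro h1 y _ hy
      exact h1 y hy
  have t1 : TL A 0 (fun v : (List Bool × (List Bool × ℕ)) × List Bool =>
      v.2.length = v.1.2.1.length) :=
    TL.dec A (Poly.decide_eq (Poly.length (Poly.snd Poly.id))
      (Poly.length (Poly.fst (Poly.snd (Poly.fst Poly.id)))))
  have t2 : TL A k (fun v : (List Bool × (List Bool × ℕ)) × List Bool => v.2 ∈ K) :=
    hK.typed.comp (f := fun v : (List Bool × (List Bool × ℕ)) × List Bool => v.2)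
      (Poly.snd Poly.id)
  have t3 : TL A k' (fun v : (List Bool × (List Bool × ℕ)) × List Bool =>
      pairBits v.2 (str v.1.2.2) ∈ L') :=
    hL'.typed.comp (f := fun v : (List Bool × (List Bool × ℕ)) × List Bool =>
      pairBits v.2 (str v.1.2.2)) (poly_pairBits (Poly.snd Poly.id)
        (poly_str (Poly.snd (Poly.snd (Poly.fst Poly.id)))))
  have t4 := (t1.imp (t2.iff t3)).all (m := fun v : List Bool × (List Bool × ℕ) =>
    4 * v.1.length + 1) (UPoly.add (UPoly.mul (UPoly.const 4) (UPoly.length (Poly.fst Poly.id)))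
      (UPoly.const 1))
  obtain ⟨d₁, hd₁⟩ : ∃ d₁, TL A d₁ GoodT := ⟨_, t4⟩
  -- the minimality
  set M : List Bool → ℕ := fun x => 4 * (q.eval x.length + 1) + 1 with hM
  have hMp : UPoly M := UPoly.add (UPoly.mul (UPoly.const 4) (UPoly.add
    (UPoly.eval (UPoly.length Poly.id) q) (UPoly.const 1))) (UPoly.const 1)
  have t5 : TL A 0 (fun v : (List Bool × (List Bool × ℕ)) × ℕ => v.2 < v.1.2.2) :=
    TL.dec A (Poly.decide_lt (Poly.snd Poly.id) (Poly.snd (Poly.snd (Poly.fst Poly.id))))
  have t6 : TL A d₁ (fun v : (List Bool × (List Bool × ℕ)) × ℕ =>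
      GoodT (v.1.1, (v.1.2.1, v.2))) :=
    hd₁.comp (f := fun v : (List Bool × (List Bool × ℕ)) × ℕ => (v.1.1, (v.1.2.1, v.2)))
      (Poly.pair (Poly.fst (Poly.fst Poly.id)) (Poly.pair (Poly.fst (Poly.snd (Poly.fst Poly.id)))
        (Poly.snd Poly.id)))
  have t7 := (t5.imp t6.not).all (m := fun v : List Bool × (List Bool × ℕ) => M v.1)
    (hMp.comp (Poly.fst Poly.id))
  -- the whole formula
  set tw : List Bool × ((List Bool × List Bool) × ℕ) → List Bool × (List Bool × ℕ) :=
    fun v => (v.1, (v.2.1.1, v.2.2)) with htw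
  have htwp : Poly tw := Poly.pair (Poly.fst Poly.id) (Poly.pair
    (Poly.fst (Poly.fst (Poly.snd Poly.id))) (Poly.snd (Poly.snd Poly.id)))
  have t8 := (hd₁.and t7).comp htwp
  have hu : Poly (fun v : List Bool × ((List Bool × List Bool) × ℕ) => v.2.1.1) :=
    Poly.fst (Poly.fst (Poly.snd Poly.id))
  have hw : Poly (fun v : List Bool × ((List Bool × List Bool) × ℕ) => v.2.1.2) :=
    Poly.snd (Poly.fst (Poly.snd Poly.id))
  have hj : Poly (fun v : List Bool × ((List Bool × List Bool) × ℕ) => str v.2.2) :=
    poly_str (Poly.snd (Poly.snd Poly.id))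
  have t9 : TL A 0 (fun v : List Bool × ((List Bool × List Bool) × ℕ) =>
      v.1 = rep (code v.2.1.1.length v.2.1.2.length 0)) :=
    TL.dec A (Poly.decide_eq (Poly.fst Poly.id) (poly_rep (uPoly_code (UPoly.length hu)
      (UPoly.length hw) (UPoly.const 0))))
  have t10 : TL A 0 (fun v : List Bool × ((List Bool × List Bool) × ℕ) =>
      v.1 = rep (code v.2.1.1.length v.2.1.2.length 1)) :=
    TL.dec A (Poly.decide_eq (Poly.fst Poly.id) (poly_rep (uPoly_code (UPoly.length hu)
      (UPoly.length hw) (UPoly.const 1))))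
  have t11 : TL A 0 (fun v : List Bool × ((List Bool × List Bool) × ℕ) =>
      v.2.1.2.length < (str v.2.2).length) :=
    TL.dec A (Poly.decide_lt (Poly.length hw) (Poly.length hj))
  have t12 : TL A 0 (fun v : List Bool × ((List Bool × List Bool) × ℕ) =>
      (str v.2.2).getD v.2.1.2.length false = true) :=
    TL.dec A (Poly.decide_eq (Poly.getD hj (Poly.length hw) (NPC.Poly.const false))
      (NPC.Poly.const true))
  have t13 := ((t9.and t11).or (t10.and t12)).and t8
  have t14 := t13.ex (m := fun x => 2 * (4 * x.length + 1) + (M x) + 4)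
    (UPoly.add (UPoly.add (UPoly.mul (UPoly.const 2) (UPoly.add (UPoly.mul (UPoly.const 4)
      (UPoly.length Poly.id)) (UPoly.const 1))) hMp) (UPoly.const 4))
  refine ⟨_, (t14.congr (R' := fun x => x ∈ bitsOf b) fun x => ?_).lev⟩
  -- the least number
  have hleast : ∀ (u : List Bool) (j : ℕ), u.length ≤ x.length →
      (GoodT (x, (u, j)) ∧ (∀ j' : ℕ, sz j' ≤ M x → (j' < j → ¬ GoodT (x, (u, j')))) →
        j = Nat.find (hex u.length)) := by
    rintro u j hu ⟨h1, h2⟩
    rw [hGT x u j hu] at h1
    symm
    rw [Nat.find_eq_iff]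
    refine ⟨h1, fun j' hj' => ?_⟩
    by_contra h3
    -- take the least one
    have h4 : Nat.find (hex u.length) ≤ j' := Nat.find_min' _ h3
    have h5 := hblen u.length
    have h6 : sz (Nat.find (hex u.length)) ≤ M x := by
      have h7 := sz_nat_le (Nat.find (hex u.length))
      have h8 : (Nat.find (hex u.length)).size ≤ (b u.length).length + 1 := by
        rw [hb]
        simp only
        rw [length_str]
        rw [Nat.size_le]
        have h9 := Nat.lt_pow_succ_log_self (b := 2) (by norm_num)
          (Nat.find (hex u.length) + 1)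
        omega
      have h9 : q.eval u.length ≤ q.eval x.length := eval_mono _ hu
      simp only [hM]
      omega
    refine h2 _ h6 (lt_of_le_of_lt h4 hj') ?_
    rw [hGT x u _ hu]
    exact Nat.find_spec (hex u.length)
  have hfwd : ∀ (u w : List Bool), u.length ≤ x.length → w.length ≤ x.length →
      sz ((u, w), Nat.find (hex u.length)) ≤ 2 * (4 * x.length + 1) + (M x) + 4 ∧
      (GoodT (x, (u, Nat.find (hex u.length))) ∧ (∀ j' : ℕ, sz j' ≤ M x →
        (j' < Nat.find (hex u.length) → ¬ GoodT (x, (u, j'))))) := by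
    intro u w hu hw
    refine ⟨?_, ?_, ?_⟩
    · have h7 := sz_nat_le (Nat.find (hex u.length))
      have h8 : (Nat.find (hex u.length)).size ≤ (b u.length).length + 1 := by
        rw [hb]
        simp only
        rw [length_str]
        rw [Nat.size_le]
        have h9 := Nat.lt_pow_succ_log_self (b := 2) (by norm_num)
          (Nat.find (hex u.length) + 1)
        omega
      have h9 : q.eval u.length ≤ q.eval x.length := eval_mono _ hu
      have h10 := hblen u.length
      have h11 := sz_listBool_le u
      have h12 := sz_listBool_le w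
      simp only [NPC.sz_pair, hM]
      omega
    · rw [hGT x u _ hu]
      exact Nat.find_spec (hex u.length)
    · intro j' _ hj'
      rw [hGT x u _ hu]
      exact Nat.find_min (hex u.length) hj'
  constructor
  · rintro ⟨n, i, h1⟩
    have hx : ∃ c ≤ 1, x = rep (code n i c) := by
      rcases h1 with ⟨h1, _⟩ | ⟨h1, _⟩
      · exact ⟨0, by omega, h1⟩
      · exact ⟨1, by omega, h1⟩
    obtain ⟨c, _, hx⟩ := hx
    have hxl : x.length = code n i c := by rw [hx, length_rep]
    have e1 : (rep n).length ≤ x.length := by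
      rw [length_rep, hxl]
      exact N_le_code _ _ _
    have e2 : (rep i).length ≤ x.length := by
      rw [length_rep, hxl]
      exact i_le_code _ _ _
    obtain ⟨h2, h3⟩ := hfwd (rep n) (rep i) e1 e2
    refine ⟨((rep n, rep i), Nat.find (hex (rep n).length)), h2, ?_, h3⟩
    have e3 : str (Nat.find (hex (rep n).length)) = b n := by
      simp only [hb]
      congr 1
      congr 1
      rw [length_rep]
    simp only [length_rep]
    exact h1
  · rintro ⟨⟨⟨u, w⟩, j⟩, _, h1, h2⟩
    simp only at h1
    have hu' : u.length ≤ x.length := by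
      rcases h1 with ⟨h1, _⟩ | ⟨h1, _⟩
      · rw [h1, length_rep]
        exact N_le_code _ _ _
      · rw [h1, length_rep]
        exact N_le_code _ _ _
    have h3 : j = Nat.find (hex u.length) := hleast u j hu' h2
    have e3 : str j = b u.length := by rw [h3]
    rw [e3] at h1
    exact ⟨u.length, w.length, h1⟩

end Pool.Agent.TH707.SP
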