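import Pool.Agent.TH707.SP.Adv
import Pool.Agent.W900.RB.Basic

/-!
# `BPP` is in the polynomial hierarchy, relative to every oracle
-/

set_option autoImplicit false

namespace Pool.Agent.TH707.SP

open Pool.Agent.NPC Pool.Agent.H620R2.Gauge Pool.Agent.H591R3.PHG Pool.Agent.H622R2
  Pool.Agent.W900.IE Pool.Agent.TH680.NPP

/-- the sum of two strings -/
def xs (r u : List Bool) : List Bool := (r.zip u).map (fun p => p.1 ^^ p.2)

theorem poly_xs {α : Type} [TEnc α] {r u : α → List Bool} (hr : Poly r) (hu : Poly u) :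
    Poly (fun a => xs (r a) (u a)) := by
  unfold xs
  exact NPC.Poly.map (F := fun (_ : α) (p : Bool × Bool) => p.1 ^^ p.2) (Poly.zip hr hu)
    (Poly.xor (Poly.fst (Poly.snd Poly.id)) (Poly.snd (Poly.snd Poly.id)))

theorem xs_ofFn {m : ℕ} (r u : Fin m → Bool) :
    xs (List.ofFn r) (List.ofFn u) = List.ofFn (fun i => r i ^^ u i) := by
  unfold xs
  apply List.ext_getElem
  · simp
  · intro i h1 h2
    simp

section count

open Finset

variable {m k : ℕ}

/-- few sets cover -/
theorem exists_cover (R : Finset (Fin m → Bool)) (h : 2 * R.card ≤ 2 ^ m) (hk : m < k) :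
    ∃ u : Fin k → (Fin m → Bool), ∀ r : Fin m → Bool, ∃ i, (fun j => r j ^^ u i j) ∉ R := by
  by_contra hcon
  push Not at hcon
  -- every tuple is bad
  have h1 : (Finset.univ : Finset (Fin k → (Fin m → Bool))) ⊆
      (Finset.univ : Finset (Fin m → Bool)).biUnion (fun r =>
        Fintype.piFinset (fun _ : Fin k => R.image (fun w => fun j => r j ^^ w j))) := by
    intro u _
    obtain ⟨r, hr⟩ := hcon u
    rw [Finset.mem_biUnion]
    refine ⟨r, Finset.mem_univ _, ?_⟩
    rw [Fintype.mem_piFinset]
    intro i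
    rw [Finset.mem_image]
    refine ⟨_, hr i, ?_⟩
    funext j
    cases r j <;> cases u i j <;> rfl
  have h2 := Finset.card_le_card h1
  have h3 : (Finset.univ : Finset (Fin k → (Fin m → Bool))).card = (2 ^ m) ^ k := by
    simp
  have h4 : ((Finset.univ : Finset (Fin m → Bool)).biUnion (fun r =>
        Fintype.piFinset (fun _ : Fin k => R.image (fun w => fun j => r j ^^ w j)))).card ≤
      2 ^ m * R.card ^ k := by
    refine Finset.card_biUnion_le.trans ?_
    have h5 : ∀ r ∈ (Finset.univ : Finset (Fin m → Bool)),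
        (Fintype.piFinset (fun _ : Fin k => R.image (fun w => fun j => r j ^^ w j))).card ≤
          R.card ^ k := by
      intro r _
      rw [Fintype.card_piFinset, Finset.prod_const, Finset.card_univ, Fintype.card_fin]
      exact Nat.pow_le_pow_left Finset.card_image_le k
    refine (Finset.sum_le_sum h5).trans ?_
    simp
  rw [h3] at h2
  have h5 : 2 ^ k * ((2 ^ m) ^ k) ≤ 2 ^ k * (2 ^ m * R.card ^ k) :=
    Nat.mul_le_mul_left _ (h2.trans h4)
  have h6 : 2 ^ k * (2 ^ m * R.card ^ k) = 2 ^ m * (2 * R.card) ^ k := by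
    rw [mul_pow]
    ring
  have h7 : 2 ^ m * (2 * R.card) ^ k ≤ 2 ^ m * (2 ^ m) ^ k :=
    Nat.mul_le_mul_left _ (Nat.pow_le_pow_left h k)
  have h8 : 2 ^ m * (2 ^ m) ^ k < 2 ^ k * (2 ^ m) ^ k := by
    apply Nat.mul_lt_mul_of_pos_right
    · exact Nat.pow_lt_pow_right (by norm_num) hk
    · positivity
  omega

/-- few small sets do not cover -/
theorem exists_uncovered (Q : Finset (Fin m → Bool)) (u : Fin k → (Fin m → Bool))
    (h : k * Q.card < 2 ^ m) : ∃ r : Fin m → Bool, ∀ i, (fun j => r j ^^ u i j) ∉ Q := by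
  by_contra hcon
  push Not at hcon
  have h1 : (Finset.univ : Finset (Fin m → Bool)) ⊆
      (Finset.univ : Finset (Fin k)).biUnion (fun i => Q.image (fun w => fun j => w j ^^ u i j)) := by
    intro r _
    obtain ⟨i, hi⟩ := hcon r
    rw [Finset.mem_biUnion]
    refine ⟨i, Finset.mem_univ _, ?_⟩
    rw [Finset.mem_image]
    refine ⟨_, hi, ?_⟩
    funext j
    cases r j <;> cases u i j <;> rfl
  have h2 := Finset.card_le_card h1
  have h3 : (Finset.univ : Finset (Fin m → Bool)).card = 2 ^ m := by simp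
  have h4 : ((Finset.univ : Finset (Fin k)).biUnion
      (fun i => Q.image (fun w => fun j => w j ^^ u i j))).card ≤ k * Q.card := by
    refine Finset.card_biUnion_le.trans ?_
    refine (Finset.sum_le_sum (fun i _ => Finset.card_image_le)).trans ?_
    simp
  omega

end count

/-- the formula -/
def Cov (V : List Bool → List Bool) (p : Polynomial ℕ) (x : List Bool) : Prop :=
  ∃ us : List (List Bool), sz us ≤ (p.eval x.length + 1) * (4 * p.eval x.length + 1 + 1) + 1 ∧
    (us.length ≤ p.eval x.length + 1 ∧ (∀ i < us.length, (us.getD i []).length =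
      p.eval x.length)) ∧
    ∀ r : List Bool, sz r ≤ 4 * p.eval x.length + 1 → (r.length = p.eval x.length →
      ¬ ∀ i < us.length, ¬ V (pairBits (xs r (us.getD i [])) x) = [true])

theorem cov_of {V : List Bool → List Bool} {p : Polynomial ℕ} {x : List Bool}
    (h : 1 - 1 / 2 ^ (x.length + 2) ≤ accPr V (p.eval x.length) x) : Cov V p x := by
  classical
  set m := p.eval x.length with hm
  set R : Finset (Fin m → Bool) :=
    Finset.univ.filter (fun w => V (pairBits (List.ofFn w) x) ≠ [true]) with hR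
  have hA : (Finset.univ.filter (fun w : Fin m → Bool =>
      V (pairBits (List.ofFn w) x) = [true])).card + R.card = 2 ^ m := by
    rw [hR, Finset.card_filter_add_card_filter_not]
    simp
  have hacc : accPr V m x = ((Finset.univ.filter (fun w : Fin m → Bool =>
      V (pairBits (List.ofFn w) x) = [true])).card : ℝ) / 2 ^ m := by
    unfold accPr
    rw [Nat.card_eq_fintype_card, Fintype.card_subtype]
  have h1 : 2 * R.card ≤ 2 ^ m := by
    rw [hacc] at h
    have h2 : (1 : ℝ) / 2 ^ (x.length + 2) ≤ 1 / 2 := by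
      rw [div_le_div_iff₀ (by positivity) (by norm_num)]
      rw [one_mul, one_mul, pow_add]
      have h3 : (1 : ℝ) ≤ 2 ^ x.length := one_le_pow₀ (by norm_num)
      linarith
    have h3 : (1 : ℝ) / 2 ≤ ((Finset.univ.filter (fun w : Fin m → Bool =>
      V (pairBits (List.ofFn w) x) = [true])).card : ℝ) / 2 ^ m := by linarith
    rw [div_le_div_iff₀ (by norm_num) (by positivity)] at h3
    have h4 : 2 ^ m ≤ (Finset.univ.filter (fun w : Fin m → Bool =>
      V (pairBits (List.ofFn w) x) = [true])).card * 2 := by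
      have : (2 : ℝ) ^ m ≤ ((Finset.univ.filter (fun w : Fin m → Bool =>
        V (pairBits (List.ofFn w) x) = [true])).card : ℝ) * 2 := by linarith
      exact_mod_cast this
    omega
  obtain ⟨u, hu⟩ := exists_cover (k := m + 1) R h1 (Nat.lt_succ_self m)
  have hlen : (List.ofFn (fun i => List.ofFn (u i))).length = m + 1 := by simp
  refine ⟨List.ofFn (fun i => List.ofFn (u i)), ?_, ⟨by simp [hm], ?_⟩, ?_⟩
  · have h2 := sz_le_length_mul (List.ofFn (fun i => List.ofFn (u i))) (4 * m + 1) (by
      intro z hz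
      rw [List.mem_ofFn] at hz
      obtain ⟨i, rfl⟩ := hz
      have h2 := sz_listBool_le (List.ofFn (u i))
      rwa [List.length_ofFn] at h2)
    rw [hlen] at h2
    exact h2
  · intro i hi
    rw [hlen] at hi
    rw [List.getD_eq_getElem?_getD, List.getElem?_ofFn, dif_pos hi, Option.getD_some,
      List.length_ofFn]
  · intro r _ hr hcon
    have hr' : r = List.ofFn (fun j : Fin m => r[j]'(by rw [hr]; exact j.2)) := by
      apply List.ext_getElem
      · simp [hr, hm]
      · intro i h2 h3
        simp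
    obtain ⟨i, hi⟩ := hu (fun j : Fin m => r[j]'(by rw [hr]; exact j.2))
    apply hi
    rw [hR, Finset.mem_filter]
    refine ⟨Finset.mem_univ _, ?_⟩
    have h2 := hcon i.1 (by rw [hlen]; exact i.2)
    rw [List.getD_eq_getElem?_getD, List.getElem?_ofFn, dif_pos i.2, Option.getD_some] at h2
    rw [hr', xs_ofFn] at h2
    exact h2

theorem eq_ofFn {w : List Bool} {m : ℕ} (h : w.length = m) :
    w = List.ofFn (fun j : Fin m => w.getD j.1 false) := by
  apply List.ext_getElem
  · rw [h, List.length_ofFn]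
  · intro j h7 h8
    rw [List.getElem_ofFn]
    exact (List.getD_eq_getElem _ _ h7).symm

theorem of_cov {V : List Bool → List Bool} {p : Polynomial ℕ} {x : List Bool}
    (hsm : p.eval x.length + 1 < 2 ^ (x.length + 2))
    (h : accPr V (p.eval x.length) x ≤ 1 / 2 ^ (x.length + 2)) : ¬ Cov V p x := by
  classical
  rintro ⟨us, _, ⟨h1, h2⟩, h3⟩
  set m := p.eval x.length with hm
  set Q : Finset (Fin m → Bool) :=
    Finset.univ.filter (fun w => V (pairBits (List.ofFn w) x) = [true]) with hQ
  have hacc : accPr V m x = (Q.card : ℝ) / 2 ^ m := by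
    unfold accPr
    rw [Nat.card_eq_fintype_card, Fintype.card_subtype]
  have h4 : us.length * Q.card < 2 ^ m := by
    rw [hacc, div_le_div_iff₀ (by positivity) (by positivity), one_mul] at h
    have h5 : Q.card * 2 ^ (x.length + 2) ≤ 2 ^ m := by exact_mod_cast h
    rcases Nat.eq_zero_or_pos Q.card with h6 | h6
    · rw [h6, mul_zero]
      positivity
    · calc us.length * Q.card ≤ (m + 1) * Q.card := Nat.mul_le_mul_right _ h1
        _ < 2 ^ (x.length + 2) * Q.card := Nat.mul_lt_mul_of_pos_right hsm h6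
        _ = Q.card * 2 ^ (x.length + 2) := mul_comm _ _
        _ ≤ 2 ^ m := h5
  obtain ⟨r, hr⟩ := exists_uncovered (k := us.length) Q
    (fun i j => (us.getD i.1 []).getD j.1 false) h4
  refine h3 (List.ofFn r) ?_ (by simp [hm]) ?_
  · have h5 := sz_listBool_le (List.ofFn r)
    rwa [List.length_ofFn] at h5
  · intro i hi hcon
    apply hr ⟨i, hi⟩
    rw [hQ, Finset.mem_filter]
    refine ⟨Finset.mem_univ _, ?_⟩
    have h5 := eq_ofFn (h2 i hi)
    rw [h5, xs_ofFn] at hcon
    exact hcon

theorem lev_cov {A : Oracle} {V : List Bool → List Bool} (hV : IsFP A V) (p : Polynomial ℕ) :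
    ∃ d, Lev A d (fun x => Cov V p x) := by
  have h0 : Lev A 2 (fun z => V z = [true]) := PA.lev ⟨V, hV, fun _ => Iff.rfl⟩
  have up : UPoly (fun x : List Bool => p.eval x.length) := UPoly.eval (UPoly.length Poly.id) p
  -- the variables: `(((x, us), r), i)`
  have px : Poly (fun v : ((List Bool × List (List Bool)) × List Bool) × ℕ => v.1.1.1) :=
    Poly.fst (Poly.fst (Poly.fst Poly.id))
  have pus : Poly (fun v : ((List Bool × List (List Bool)) × List Bool) × ℕ => v.1.1.2) :=
    Poly.snd (Poly.fst (Poly.fst Poly.id))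
  have pr : Poly (fun v : ((List Bool × List (List Bool)) × List Bool) × ℕ => v.1.2) :=
    Poly.snd (Poly.fst Poly.id)
  have pi : Poly (fun v : ((List Bool × List (List Bool)) × List Bool) × ℕ => v.2) :=
    Poly.snd Poly.id
  have t1 := (h0.typed.comp (f := fun v : ((List Bool × List (List Bool)) × List Bool) × ℕ =>
    pairBits (xs v.1.2 (v.1.1.2.getD v.2 [])) v.1.1.1) (poly_pairBits (poly_xs pr
      (Poly.getD pus pi (NPC.Poly.const []))) px)).not
  have t2 := (t1.allLt (m := fun v : (List Bool × List (List Bool)) × List Bool => v.1.2.length)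
    (UPoly.length (Poly.snd (Poly.fst Poly.id)))).not
  have t3 : TL A 0 (fun v : (List Bool × List (List Bool)) × List Bool =>
      v.2.length = p.eval v.1.1.length) :=
    TL.dec A (Poly.decide_eq (Poly.length (Poly.snd Poly.id))
      (up.comp (Poly.fst (Poly.fst Poly.id))).toPoly)
  have t4 := (t3.imp t2).all (m := fun v : List Bool × List (List Bool) =>
    4 * p.eval v.1.length + 1) (UPoly.add (UPoly.mul (UPoly.const 4)
      (up.comp (Poly.fst Poly.id))) (UPoly.const 1))
  have t5 : TL A 0 (fun v : List Bool × List (List Bool) =>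
      v.2.length ≤ p.eval v.1.length + 1) :=
    TL.dec A (Poly.decide_le (Poly.length (Poly.snd Poly.id))
      (UPoly.add (up.comp (Poly.fst Poly.id)) (UPoly.const 1)).toPoly)
  have t6 : TL A 0 (fun v : (List Bool × List (List Bool)) × ℕ =>
      (v.1.2.getD v.2 []).length = p.eval v.1.1.length) :=
    TL.dec A (Poly.decide_eq (Poly.length (Poly.getD (Poly.snd (Poly.fst Poly.id))
      (Poly.snd Poly.id) (NPC.Poly.const []))) (up.comp (Poly.fst (Poly.fst Poly.id))).toPoly)
  have t7 := t6.allLt (m := fun v : List Bool × List (List Bool) => v.2.length)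
    (UPoly.length (Poly.snd Poly.id))
  have t8 := ((t5.and t7).and t4).ex (m := fun x : List Bool =>
    (p.eval x.length + 1) * (4 * p.eval x.length + 1 + 1) + 1)
    (UPoly.add (UPoly.mul (UPoly.add up (UPoly.const 1)) (UPoly.add (UPoly.add (UPoly.mul
      (UPoly.const 4) up) (UPoly.const 1)) (UPoly.const 1))) (UPoly.const 1))
  exact ⟨_, t8.lev⟩

/-- a finite change of the language -/
theorem lev_finite {A : Oracle} {R R' : List Bool → Prop} {d n₀ : ℕ} (h : Lev A d R)
    (hR : ∀ x : List Bool, n₀ ≤ x.length → (R' x ↔ R x)) : ∃ d, Lev A d R' := by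
  classical
  set S : Finset (List Bool) := ((Finset.range n₀).biUnion
    Pool.Agent.TH680.DT.strs).filter (fun x => R' x) with hS
  have h1 : TL A 0 (fun x : List Bool => x ∈ S.toList) :=
    TL.dec A (Poly.dec_mem Poly.id (NPC.Poly.const S.toList))
  have h2 : TL A 0 (fun x : List Bool => n₀ ≤ x.length) :=
    TL.dec A (Poly.decide_le (NPC.Poly.const n₀) (Poly.length Poly.id))
  refine ⟨_, ((h1.or (h2.and h.typed)).congr (R' := R') fun x => ?_).lev⟩
  have h3 : x ∈ S.toList ↔ x.length < n₀ ∧ R' x := by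
    rw [Finset.mem_toList, hS, Finset.mem_filter, Finset.mem_biUnion]
    constructor
    · rintro ⟨⟨N, hN, hx⟩, h⟩
      rw [Finset.mem_range] at hN
      rw [Pool.Agent.TH680.DT.mem_strs] at hx
      exact ⟨by omega, h⟩
    · rintro ⟨h3, h4⟩
      exact ⟨⟨x.length, Finset.mem_range.2 h3, Pool.Agent.TH680.DT.mem_strs.2 rfl⟩, h4⟩
  rw [h3]
  rcases Nat.lt_or_ge x.length n₀ with h4 | h4
  · have h5 : ¬ n₀ ≤ x.length := by omega
    tauto
  · have h5 : ¬ x.length < n₀ := by omega
    rw [hR x h4]
    tauto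

/-- **`BPP` is in the polynomial hierarchy.** -/
theorem lev_of_isBPP {A : Oracle} {L : Set (List Bool)} (h : IsBPP A L) :
    ∃ d, Lev A d (fun x => x ∈ L) := by
  obtain ⟨V, p, hV, hL⟩ := h
  obtain ⟨d, hd⟩ := lev_cov hV p
  obtain ⟨n₀, hn₀⟩ := (H529R3.Lev.poly_le_two_pow (p + 1)).exists_forall_of_atTop
  refine lev_finite (n₀ := n₀) hd fun x hx => ?_
  have hsm : p.eval x.length + 1 < 2 ^ (x.length + 2) := by
    have h1 := hn₀ x.length hx
    simp only [Polynomial.eval_add, Polynomial.eval_one] at h1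
    have h2 : 2 ^ x.length < 2 ^ (x.length + 2) := Nat.pow_lt_pow_right (by norm_num) (by omega)
    omega
  constructor
  · intro h1
    exact cov_of ((hL x).1 h1)
  · intro h1
    by_contra h2
    exact of_cov hsm ((hL x).2 h2) h1

/-- If `NP = coNP` then the hierarchy is `NP`. -/
theorem isNP_of_lev {A : Oracle} (H : ∀ L, IsNP A L → IsNP A Lᶜ) {n : ℕ} {R : List Bool → Prop}
    (h : Lev A n R) : IsNP A {x | R x} := by
  induction h with
  | @base n R h =>
    obtain ⟨V, hV, hR⟩ := h.pa
    exact isNP_of_p ⟨V, hV, fun x => hR x⟩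
  | neg _ ih => exact H _ ih
  | ex m hm _ ih => exact isNP_ex ih hm

/-- If some language in `BPP` is not in `NP` then `NP` and `coNP` are different. -/
theorem np_ne_conp {A : Oracle} (h : ∃ L, IsBPP A L ∧ ¬ IsNP A L) :
    ∃ L, IsNP A L ∧ ¬ IsNP A Lᶜ := by
  by_contra hcon
  push Not at hcon
  obtain ⟨L, h1, h2⟩ := h
  obtain ⟨d, hd⟩ := lev_of_isBPP h1
  exact h2 (isNP_of_lev hcon hd)

end Pool.Agent.TH707.SP
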